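import Pool.Agent.L0h64.QV.Stm

set_option autoImplicit false

/-! # CX: the extension of scalars of a module -/

namespace Pool.Agent.L0h88.QV

open MvPolynomial TensorProduct Pool.Agent.L0h64.QV

attribute [local instance] MvPolynomial.algebraMvPolynomial

universe v

/-- **CX** -/
theorem CX : FDM_stm.{v} → CX_stm.{v} := by
  intro hF k _ _ σ M M' _ _ _ _ _ _ _ _ _ j hj
  obtain ⟨d, b, b', hb⟩ := hj.basis
  haveI : FiniteDimensional k M := Module.Finite.of_basis b
  haveI : FiniteDimensional ℂ M' := Module.Finite.of_basis b'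
  obtain ⟨h1, h2, h3⟩ := hF k σ M
  letI : Module (MvPolynomial σ k) M' :=
    Module.compHom M' (algebraMap (MvPolynomial σ k) (MvPolynomial σ ℂ))
  haveI : IsScalarTower (MvPolynomial σ k) (MvPolynomial σ ℂ) M' :=
    IsScalarTower.of_algebraMap_smul fun _ _ => rfl
  have hdef : ∀ (p : MvPolynomial σ k) (y : M'),
      p • y = (MvPolynomial.map (algebraMap k ℂ) p : MvPolynomial σ ℂ) • y := fun _ _ => rfl
  have hjs : ∀ (p : MvPolynomial σ k) (x : M), j (p • x) = p • j x := by
    intro p
    induction p using MvPolynomial.induction_on with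
    | C c =>
      intro x
      rw [hdef, MvPolynomial.map_C]
      have e1 : (C c : MvPolynomial σ k) • x = c • x := by
        rw [← MvPolynomial.algebraMap_eq, algebraMap_smul]
      have e2 : (C (algebraMap k ℂ c) : MvPolynomial σ ℂ) • j x = (algebraMap k ℂ c) • j x := by
        rw [← MvPolynomial.algebraMap_eq, algebraMap_smul]
      rw [e1, e2, hj.smul]
    | add p q hp hq =>
      intro x
      rw [add_smul, add_smul, hj.add, hp, hq]
    | mul_X p l hp =>
      intro x
      rw [mul_smul, hp, hj.X_smul, mul_smul]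
      congr 1
      rw [hdef, MvPolynomial.map_X]
  let j' : M →ₗ[MvPolynomial σ k] M' := { toFun := j, map_add' := hj.add, map_smul' := hjs }
  let φ : (MvPolynomial σ ℂ ⊗[MvPolynomial σ k] M) →ₗ[MvPolynomial σ ℂ] M' :=
    j'.liftBaseChange (MvPolynomial σ ℂ)
  have hφ : ∀ x : M, φ (1 ⊗ₜ x) = j x := fun x => by
    change j'.liftBaseChange (MvPolynomial σ ℂ) (1 ⊗ₜ x) = j x
    rw [LinearMap.liftBaseChange_tmul, one_smul]
    rfl
  have hsurj : Function.Surjective (φ.restrictScalars ℂ) := by
    rw [← LinearMap.range_eq_top, eq_top_iff, ← b'.span_eq, Submodule.span_le]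
    rintro _ ⟨i, rfl⟩
    exact ⟨1 ⊗ₜ b i, by rw [hb i]; exact hφ _⟩
  have hdim : Module.finrank ℂ (MvPolynomial σ ℂ ⊗[MvPolynomial σ k] M) = Module.finrank ℂ M' := by
    rw [h3, Module.finrank_eq_card_basis b, Module.finrank_eq_card_basis b']
  have hinj : Function.Injective (φ.restrictScalars ℂ) :=
    (LinearMap.injective_iff_surjective_of_finrank_eq_finrank hdim).2 hsurj
  exact ⟨LinearEquiv.ofBijective φ ⟨hinj, hsurj⟩⟩

end Pool.Agent.L0h88.QV
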